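import Pool.Agent.Helper94.SP.B3

/-!
# Module B4a: extensionality, pairing, union, infinity, foundation are forced
-/

universe u

namespace Pool.Agent.Helper94.SP

open Pool.Agent.Helper46.SP Pool.Agent.Helper46.SP.Name

/-! ## Destructors of names -/

section Destr

variable {P : Type u}

/-- The index type of a name. -/
def idx : Name P → Type u
  | Name.mk α _ _ => α

/-- The elements of a name. -/
def el : (a : Name P) → idx a → Name P
  | Name.mk _ A _ => A

/-- The conditions of a name. -/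
def cd : (a : Name P) → idx a → P
  | Name.mk _ _ B => B

theorem mk_eta (a : Name P) : Name.mk (idx a) (el a) (cd a) = a := by
  cases a; rfl

theorem fmem_iff [Preorder P] (x a : Name P) (p : P) :
    FMem x a p ↔ ∀ q ≤ p, ∃ r ≤ q, ∃ j : idx a, r ≤ cd a j ∧ FEq x (el a j) r := by
  cases a
  exact fmem_mk _ _ _ _

theorem fmem_el [Preorder P] (a : Name P) (j : idx a) {p : P} (h : p ≤ cd a j) :
    FMem (el a j) a p := by
  cases a
  exact fmem_elem _ _ _ h

end Destr

section Sys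

variable {P G : Type u} [Preorder P] [OrderTop P] [Group G] [MulAction G P]

theorem isHS_iff (S : SymSys P G) (a : Name P) :
    S.IsHS a ↔ (∀ j : idx a, S.IsHS (el a j)) ∧ S.IsSym a := by
  cases a
  exact isHS_mk S _ _

theorem isHS_el (S : SymSys P G) {a : Name P} (h : S.IsHS a) (j : idx a) : S.IsHS (el a j) :=
  ((isHS_iff S a).1 h).1 j

theorem fmem_act_iff (S : SymSys P G) (g : G) (x a : Name P) (p : P) :
    FMem x (act g a) p ↔ FMem (act g⁻¹ x) a (g⁻¹ • p) := by
  constructor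
  · intro h
    have := fmem_act S g⁻¹ h
    rwa [act_inv_act] at this
  · intro h
    have := fmem_act S g h
    rwa [act_act_inv, smul_inv_smul] at this

/-- A criterion for symmetry: the membership relation of `a` is invariant. -/
theorem isSym_of_fmem (S : SymSys P G) {a : Name P} (H : Subgroup G) (hH : H ∈ S.F)
    (h : ∀ g ∈ H, ∀ x p, FMem x a p → FMem (act g x) a (g • p)) : S.IsSym a := by
  refine ⟨H, hH, fun g hg => feq_ext fun x q _ => ?_⟩
  rw [fmem_act_iff S]
  constructor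
  · intro h1
    have := h g hg _ _ h1
    rwa [act_act_inv, smul_inv_smul] at this
  · intro h1
    exact h g⁻¹ (H.inv_mem hg) _ _ h1

/-! ## Union -/

/-- The union of a name. -/
def unionN (a : Name P) : Name P :=
  Name.mk (Σ i : idx a, Σ j : idx (el a i), {r : P // r ≤ cd a i ∧ r ≤ cd (el a i) j})
    (fun t => el (el a t.1) t.2.1) (fun t => t.2.2.1)

omit [OrderTop P] in
theorem fmem_unionN (z a : Name P) (p : P) : FMem z (unionN a) p ↔
    ∀ q ≤ p, ∃ r ≤ q, ∃ w : Name P, FMem w a r ∧ FMem z w r := by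
  unfold unionN
  rw [fmem_mk]
  constructor
  · intro h q hq
    obtain ⟨r, hr, ⟨i, j, c, hc⟩, hrc, he⟩ := h q hq
    exact ⟨r, hr, el a i, fmem_el a i (le_trans hrc hc.1),
      fmem_congr (feq_symm he) (feq_refl _ _) (fmem_el (el a i) j (le_trans hrc hc.2))⟩
  · intro h q hq
    obtain ⟨r, hr, w, h1, h2⟩ := h q hq
    rw [fmem_iff] at h1
    obtain ⟨s, hs, i, hi, he⟩ := h1 r le_rfl
    have h3 := fmem_congr (feq_refl z s) he (fmem_mono h2 hs)
    rw [fmem_iff] at h3
    obtain ⟨t, ht, j, hj, he'⟩ := h3 s le_rfl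
    exact ⟨t, ht.trans (hs.trans hr), ⟨i, j, t, ht.trans hi, hj⟩, le_rfl, he'⟩

theorem hs_unionN (S : SymSys P G) {a : Name P} (ha : S.IsHS a) : S.IsHS (unionN a) := by
  have hsym : S.IsSym (unionN a) := by
    obtain ⟨H, hH, hh⟩ := isHS_isSym S ha
    refine isSym_of_fmem S H hH fun g hg x p hx => ?_
    rw [fmem_unionN] at hx ⊢
    intro q hq
    obtain ⟨r, hr, w, h1, h2⟩ := hx (g⁻¹ • q) (le_smul S g hq)
    exact ⟨g • r, smul_le_of S g hr, act g w,
      fmem_congr (feq_refl _ _) (feq_mono (hh g hg) le_top) (fmem_act S g h1), fmem_act S g h2⟩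
  rw [isHS_iff]
  refine ⟨fun t => ?_, hsym⟩
  exact isHS_el S (isHS_el S ha t.1) t.2.1

/-! ## The axioms -/

theorem forces_axExt (S : SymSys P G) (p : P) : S.Forces Fml.axExt Fin.elim0 p := by
  intro x hx y hy
  rw [forces_imp]
  intro q _ h
  refine feq_ext_hs S hx hy fun z hz r hr => ?_
  have h1 := h z hz
  rw [forces_iff] at h1
  exact h1 r hr

theorem forces_axPair (S : SymSys P G) (p : P) : S.Forces Fml.axPair Fin.elim0 p := by
  intro x hx y hy
  rw [forces_ex]
  intro q _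
  refine ⟨q, le_rfl, Name.pair x y, hs_pair S hx hy, ?_⟩
  rw [forces_isPair S _ (hs_cons S (hs_pair S hx hy) (hs_cons S hy (hs_cons S hx
    (fun i => Fin.elim0 i))))]
  exact feq_refl _ _

theorem forces_axUnion (S : SymSys P G) (p : P) : S.Forces Fml.axUnion Fin.elim0 p := by
  intro x hx
  rw [forces_ex]
  intro q _
  refine ⟨q, le_rfl, unionN x, hs_unionN S hx, ?_⟩
  intro z hz
  rw [forces_iff]
  intro r _
  have h1 : S.Forces (Fml.mem 0 1) (Fin.cons z (Fin.cons (unionN x) (Fin.cons x Fin.elim0 :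
      Fin 1 → Name P) : Fin 2 → Name P) : Fin 3 → Name P) r ↔ FMem z (unionN x) r := Iff.rfl
  rw [h1, fmem_unionN, forces_ex]
  constructor
  · intro h s hs
    obtain ⟨t, ht, w, h2, h3⟩ := h s hs
    rw [fmem_iff] at h2
    obtain ⟨t', ht', i, hi, he⟩ := h2 t le_rfl
    exact ⟨t', ht'.trans ht, el x i, isHS_el S hx i, fmem_el x i hi,
      fmem_congr (feq_refl _ _) he (fmem_mono h3 ht')⟩
  · intro h s hs
    obtain ⟨t, ht, w, hw, h2, h3⟩ := h s hs
    exact ⟨t, ht, w, h2, h3⟩

theorem forces_axInf (S : SymSys P G) (p : P) : S.Forces Fml.axInf Fin.elim0 p := by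
  unfold Fml.axInf
  rw [forces_ex]
  intro q _
  refine ⟨q, le_rfl, Name.omega, hs_omega S, ?_⟩
  rw [forces_isInductive S _ (hs_cons S (hs_omega S) (fun i => Fin.elim0 i))]
  exact omega_inductive S q

theorem found_aux (S : SymSys P G) (x : Name P) (y : Name P) :
    ∀ q : P, S.IsHS y → FMem y x q → ∃ r ≤ q, ∃ y' : Name P, S.IsHS y' ∧ FMem y' x r ∧
      ∀ z, S.IsHS z → ∀ s ≤ r, FMem z x s → ∀ t ≤ s, ¬ FMem z y' t := by
  induction y with
  | mk α A B ih =>
    intro q hy hm
    by_cases h : ∃ r ≤ q, ∃ z : Name P, FMem z x r ∧ FMem z (Name.mk α A B) r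
    · obtain ⟨r, hr, z, h1, h2⟩ := h
      rw [fmem_mk] at h2
      obtain ⟨s, hs, j, _, he⟩ := h2 r le_rfl
      obtain ⟨t, ht, y', h3⟩ := ih j s (((isHS_mk S A B).1 hy).1 j)
        (fmem_congr he (feq_refl _ _) (fmem_mono h1 hs))
      exact ⟨t, ht.trans (hs.trans hr), y', h3⟩
    · push Not at h
      refine ⟨q, le_rfl, _, hy, hm, fun z _ s hs h1 t ht h2 => ?_⟩
      exact h t (ht.trans hs) z (fmem_mono h1 ht) h2

theorem forces_axFound (S : SymSys P G) (p : P) : S.Forces Fml.axFound Fin.elim0 p := by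
  intro x _
  rw [forces_imp]
  intro q _ h
  rw [forces_ex] at h ⊢
  intro r hr
  obtain ⟨s, hs, y, hy, hm⟩ := h r hr
  obtain ⟨t, ht, y', hy', hm', hmin⟩ := found_aux S x y s hy hm
  refine ⟨t, ht.trans hs, y', hy', hm', fun z hz => ?_⟩
  rw [forces_imp]
  intro a ha h1
  exact fun b hb h2 => hmin z hz a ha h1 b hb h2

end Sys

end Pool.Agent.Helper94.SP
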