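import Pool.Agent.Helper94.SP.B2

/-!
# Module B3: pairs, numerals, `ω` and reals in the symmetric model
-/

universe u

namespace Pool.Agent.Helper94.SP

open Pool.Agent.Helper46.SP Pool.Agent.Helper46.SP.Name

section Pre

variable {P : Type u} [Preorder P]

theorem feq_pointwise {α : Type u} (A A' : α → Name P) (B B' : α → P) {p : P}
    (h1 : ∀ i, ∀ q ≤ p, q ≤ B i ↔ q ≤ B' i) (h2 : ∀ i, FEq (A i) (A' i) p) :
    FEq (Name.mk α A B) (Name.mk α A' B') p := by
  rw [feq_mk]
  exact ⟨fun i q hq hi => ⟨q, le_rfl, i, (h1 i q hq).1 hi, feq_mono (h2 i) hq⟩,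
    fun i q hq hi => ⟨q, le_rfl, i, (h1 i q hq).2 hi, feq_mono (h2 i) hq⟩⟩

theorem not_fmem_self (a : Name P) (p : P) : ¬ FMem a a p := by
  induction a generalizing p with
  | mk α A B ih =>
    intro h
    rw [fmem_mk] at h
    obtain ⟨r, hr, j, hj, he⟩ := h p le_rfl
    exact ih j r (fmem_congr (feq_refl _ _) he (fmem_elem A B j hj))

end Pre

section Top

variable {P : Type u} [Preorder P] [OrderTop P]

theorem fmem_pair (x a b : Name P) (p : P) :
    FMem x (Name.pair a b) p ↔ ∀ q ≤ p, ∃ r ≤ q, FEq x a r ∨ FEq x b r := by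
  unfold Name.pair
  rw [fmem_mk]
  constructor
  · intro h q hq
    obtain ⟨r, hr, ⟨t⟩, -, he⟩ := h q hq
    cases t
    · exact ⟨r, hr, Or.inr he⟩
    · exact ⟨r, hr, Or.inl he⟩
  · intro h q hq
    obtain ⟨r, hr, he | he⟩ := h q hq
    · exact ⟨r, hr, ⟨true⟩, le_top, he⟩
    · exact ⟨r, hr, ⟨false⟩, le_top, he⟩

theorem pair_congr {a a' b b' : Name P} {p : P} (h1 : FEq a a' p) (h2 : FEq b b' p) :
    FEq (Name.pair a b) (Name.pair a' b') p := by
  unfold Name.pair
  refine feq_pointwise _ _ _ _ (fun _ _ _ => Iff.rfl) ?_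
  rintro ⟨t⟩
  cases t
  · exact h2
  · exact h1

theorem opair_congr {a a' b b' : Name P} {p : P} (h1 : FEq a a' p) (h2 : FEq b b' p) :
    FEq (Name.opair a b) (Name.opair a' b') p :=
  pair_congr (pair_congr h1 h1) (pair_congr h1 h2)

theorem pair_cases {a b c d : Name P} {p : P} (h : FEq (Name.pair a b) (Name.pair c d) p) :
    ∀ q ≤ p, ∃ r ≤ q, (FEq a c r ∧ FEq b d r) ∨ (FEq a d r ∧ FEq b c r) := by
  intro q hq
  have hm : ∀ x : Name P, ∀ s ≤ q, (∀ t ≤ s, ∃ r ≤ t, FEq x a r ∨ FEq x b r) →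
      ∃ r ≤ s, FEq x c r ∨ FEq x d r := by
    intro x s hs hx
    have h1 := fmem_congr (feq_refl x s) (feq_mono h (hs.trans hq)) ((fmem_pair x a b s).2 hx)
    exact (fmem_pair x c d s).1 h1 s le_rfl
  have hm' : ∀ x : Name P, ∀ s ≤ q, (∀ t ≤ s, ∃ r ≤ t, FEq x c r ∨ FEq x d r) →
      ∃ r ≤ s, FEq x a r ∨ FEq x b r := by
    intro x s hs hx
    have h1 := fmem_congr (feq_refl x s) (feq_symm (feq_mono h (hs.trans hq)))
      ((fmem_pair x c d s).2 hx)
    exact (fmem_pair x a b s).1 h1 s le_rfl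
  obtain ⟨r1, hr1, ha⟩ := hm a q le_rfl (fun t _ => ⟨t, le_rfl, Or.inl (feq_refl _ _)⟩)
  obtain ⟨r2, hr2, hb⟩ := hm b r1 hr1 (fun t _ => ⟨t, le_rfl, Or.inr (feq_refl _ _)⟩)
  obtain ⟨r3, hr3, hc⟩ := hm' c r2 (hr2.trans hr1) (fun t _ => ⟨t, le_rfl, Or.inl (feq_refl _ _)⟩)
  obtain ⟨r4, hr4, hd⟩ := hm' d r3 (hr3.trans (hr2.trans hr1))
    (fun t _ => ⟨t, le_rfl, Or.inr (feq_refl _ _)⟩)
  have h31 : r3 ≤ r1 := hr3.trans hr2
  have h41 : r4 ≤ r1 := hr4.trans h31
  refine ⟨r4, hr4.trans (hr3.trans (hr2.trans hr1)), ?_⟩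
  have ha' : FEq a c r4 ∨ FEq a d r4 := ha.imp (fun x => feq_mono x h41) (fun x => feq_mono x h41)
  have hb' : FEq b c r4 ∨ FEq b d r4 :=
    hb.imp (fun x => feq_mono x (hr4.trans hr3)) (fun x => feq_mono x (hr4.trans hr3))
  have hc' : FEq c a r4 ∨ FEq c b r4 := hc.imp (fun x => feq_mono x hr4) (fun x => feq_mono x hr4)
  rcases ha' with ha' | ha' <;> rcases hb' with hb' | hb'
  · -- a = c, b = c
    left
    refine ⟨ha', ?_⟩
    rcases hd with hd | hd
    · exact feq_trans hb' (feq_trans (feq_symm ha') (feq_symm hd))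
    · exact feq_symm hd
  · exact Or.inl ⟨ha', hb'⟩
  · exact Or.inr ⟨ha', hb'⟩
  · -- a = d, b = d
    rcases hc' with hc' | hc'
    · exact Or.inl ⟨feq_symm hc', hb'⟩
    · exact Or.inr ⟨ha', feq_symm hc'⟩

theorem opair_inj {a b a' b' : Name P} {p : P}
    (h : FEq (Name.opair a b) (Name.opair a' b') p) : FEq a a' p ∧ FEq b b' p := by
  have key : ∀ q ≤ p, ∃ r ≤ q, FEq a a' r ∧ FEq b b' r := by
    intro q hq
    obtain ⟨r, hr, h1 | h1⟩ := pair_cases h q hq
    · obtain ⟨r1, hr1, h2⟩ := pair_cases h1.1 r le_rfl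
      obtain ⟨r2, hr2, h3⟩ := pair_cases h1.2 r1 hr1
      have haa : FEq a a' r2 := by
        rcases h2 with h2 | h2 <;> exact feq_mono h2.1 hr2
      refine ⟨r2, hr2.trans (hr1.trans hr), haa, ?_⟩
      rcases h3 with h3 | h3
      · exact h3.2
      · exact feq_trans h3.2 (feq_trans (feq_symm haa) h3.1)
    · obtain ⟨r1, hr1, h2⟩ := pair_cases h1.1 r le_rfl
      obtain ⟨r2, hr2, h3⟩ := pair_cases h1.2 r1 hr1
      have hab : FEq a a' r2 ∧ FEq a b' r2 := by
        rcases h2 with h2 | h2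
        · exact ⟨feq_mono h2.1 hr2, feq_mono h2.2 hr2⟩
        · exact ⟨feq_mono h2.2 hr2, feq_mono h2.1 hr2⟩
      refine ⟨r2, hr2.trans (hr1.trans hr), hab.1, ?_⟩
      have hba : FEq b a' r2 := by
        rcases h3 with h3 | h3
        · exact h3.2
        · exact h3.2
      exact feq_trans hba (feq_trans (feq_symm hab.1) hab.2)
  exact ⟨feq_dense fun q hq => (key q hq).imp fun r hr => ⟨hr.1, hr.2.1⟩,
    feq_dense fun q hq => (key q hq).imp fun r hr => ⟨hr.1, hr.2.2⟩⟩

theorem num_eq (n : ℕ) : (Name.num n : Name P) =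
    Name.mk (ULift.{u} (Fin n)) (fun i => Name.num i.down.1) (fun _ => ⊤) := by
  rw [Name.num]

theorem fmem_num_of_lt {m n : ℕ} (h : m < n) (p : P) :
    FMem (Name.num m) (Name.num n : Name P) p := by
  rw [num_eq n]
  exact fmem_elem (fun i : ULift.{u} (Fin n) => (Name.num i.down.1 : Name P)) (fun _ => ⊤)
    ⟨⟨m, h⟩⟩ le_top

theorem num_inj {m n : ℕ} {p : P} (h : FEq (Name.num m) (Name.num n : Name P) p) : m = n := by
  rcases lt_trichotomy m n with hl | hl | hl
  · exact absurd (fmem_congr (feq_refl _ _) (feq_symm h) (fmem_num_of_lt hl p)) (not_fmem_self _ _)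
  · exact hl
  · exact absurd (fmem_congr (feq_refl _ _) h (fmem_num_of_lt hl p)) (not_fmem_self _ _)

theorem fmem_num (x : Name P) (n : ℕ) (p : P) : FMem x (Name.num n) p ↔
    ∀ q ≤ p, ∃ r ≤ q, ∃ m < n, FEq x (Name.num m) r := by
  rw [num_eq n, fmem_mk]
  constructor
  · intro h q hq
    obtain ⟨r, hr, ⟨j⟩, -, he⟩ := h q hq
    exact ⟨r, hr, j.1, j.2, he⟩
  · intro h q hq
    obtain ⟨r, hr, m, hm, he⟩ := h q hq
    exact ⟨r, hr, ⟨⟨m, hm⟩⟩, le_top, he⟩

theorem fmem_omega (x : Name P) (p : P) : FMem x Name.omega p ↔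
    ∀ q ≤ p, ∃ r ≤ q, ∃ m : ℕ, FEq x (Name.num m) r := by
  unfold Name.omega
  rw [fmem_mk]
  constructor
  · intro h q hq
    obtain ⟨r, hr, ⟨j⟩, -, he⟩ := h q hq
    exact ⟨r, hr, j, he⟩
  · intro h q hq
    obtain ⟨r, hr, m, he⟩ := h q hq
    exact ⟨r, hr, ⟨m⟩, le_top, he⟩

/-- `a ∪ {a}`. -/
def succN (a : Name P) : Name P :=
  match a with
  | Name.mk α A B => Name.mk (Option α)
      (fun o => match o with | none => Name.mk α A B | some i => A i)
      (fun o => match o with | none => ⊤ | some i => B i)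

theorem fmem_succN (x a : Name P) (p : P) :
    FMem x (succN a) p ↔ ∀ q ≤ p, ∃ r ≤ q, FMem x a r ∨ FEq x a r := by
  cases a with
  | mk α A B =>
    simp only [succN]
    rw [fmem_mk]
    constructor
    · intro h q hq
      obtain ⟨r, hr, j, hj, he⟩ := h q hq
      cases j with
      | none => exact ⟨r, hr, Or.inr he⟩
      | some i =>
        exact ⟨r, hr, Or.inl (fmem_congr (feq_symm he) (feq_refl _ _) (fmem_elem A B i hj))⟩
    · intro h q hq
      obtain ⟨r, hr, he | he⟩ := h q hq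
      · rw [fmem_mk] at he
        obtain ⟨s, hs, j, hj, he'⟩ := he r le_rfl
        exact ⟨s, hs.trans hr, some j, hj, he'⟩
      · exact ⟨r, hr, none, le_top, he⟩

theorem succN_congr {a b : Name P} {p : P} (h : FEq a b p) : FEq (succN a) (succN b) p := by
  refine feq_ext fun x q hq => ?_
  rw [fmem_succN, fmem_succN]
  have hab := feq_mono h hq
  constructor
  · intro h' s hs
    obtain ⟨r, hr, he | he⟩ := h' s hs
    · exact ⟨r, hr, Or.inl (fmem_congr (feq_refl _ _) (feq_mono hab (hr.trans hs)) he)⟩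
    · exact ⟨r, hr, Or.inr (feq_trans he (feq_mono hab (hr.trans hs)))⟩
  · intro h' s hs
    obtain ⟨r, hr, he | he⟩ := h' s hs
    · exact ⟨r, hr, Or.inl (fmem_congr (feq_refl _ _) (feq_symm (feq_mono hab (hr.trans hs))) he)⟩
    · exact ⟨r, hr, Or.inr (feq_trans he (feq_symm (feq_mono hab (hr.trans hs))))⟩

theorem succN_num (n : ℕ) (p : P) : FEq (succN (Name.num n)) (Name.num (n + 1) : Name P) p := by
  refine feq_ext fun x q hq => ?_
  rw [fmem_succN, fmem_num]
  constructor
  · intro h' s hs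
    obtain ⟨r, hr, he | he⟩ := h' s hs
    · rw [fmem_num] at he
      obtain ⟨r', hr', m, hm, he'⟩ := he r le_rfl
      exact ⟨r', hr'.trans hr, m, hm.trans n.lt_succ_self, he'⟩
    · exact ⟨r, hr, n, n.lt_succ_self, he⟩
  · intro h' s hs
    obtain ⟨r, hr, m, hm, he⟩ := h' s hs
    rcases Nat.lt_succ_iff_lt_or_eq.1 hm with hm | hm
    · exact ⟨r, hr, Or.inl (fmem_congr (feq_symm he) (feq_refl _ _) (fmem_num_of_lt hm r))⟩
    · subst hm
      exact ⟨r, hr, Or.inr he⟩

end Top

section Sys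

variable {P G : Type u} [Preorder P] [OrderTop P] [Group G] [MulAction G P]

theorem forces_mem (S : SymSys P G) {k : ℕ} (i j : Fin k) (v : Fin k → Name P) (p : P) :
    S.Forces (Fml.mem i j) v p ↔ FMem (v i) (v j) p := Iff.rfl

theorem forces_eq (S : SymSys P G) {k : ℕ} (i j : Fin k) (v : Fin k → Name P) (p : P) :
    S.Forces (Fml.eq i j) v p ↔ FEq (v i) (v j) p := Iff.rfl

theorem hs_cons (S : SymSys P G) {k : ℕ} {x : Name P} {v : Fin k → Name P} (hx : S.IsHS x)
    (hv : ∀ i, S.IsHS (v i)) (i : Fin (k + 1)) : S.IsHS ((Fin.cons x v : Fin (k + 1) → Name P) i) := by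
  refine Fin.cases ?_ (fun j => ?_) i
  · exact hx
  · exact hv j

theorem act_num (S : SymSys P G) (g : G) (n : ℕ) : act g (Name.num n : Name P) = Name.num n := by
  induction n using Nat.strong_induction_on with
  | _ n ih =>
    rw [num_eq n]
    simp only [act, S.smul_top, Name.mk.injEq, heq_eq_eq, true_and, and_true]
    funext i
    exact ih i.down.1 i.down.2

theorem isSym_of_act (S : SymSys P G) {a : Name P} (h : ∀ g : G, act g a = a) : S.IsSym a :=
  ⟨⊤, S.top_mem, fun g _ => by rw [h g]; exact feq_refl _ _⟩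

theorem hs_num (S : SymSys P G) (n : ℕ) : S.IsHS (Name.num n) := by
  induction n using Nat.strong_induction_on with
  | _ n ih =>
    have h := isSym_of_act S (fun g => act_num S g n)
    rw [num_eq n] at h ⊢
    rw [isHS_mk]
    exact ⟨fun i => ih i.down.1 i.down.2, h⟩

theorem act_omega (S : SymSys P G) (g : G) : act g (Name.omega : Name P) = Name.omega := by
  unfold Name.omega
  simp only [act, S.smul_top, act_num S g]

theorem hs_omega (S : SymSys P G) : S.IsHS Name.omega := by
  have h := isSym_of_act S (fun g => act_omega S g)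
  unfold Name.omega at h ⊢
  rw [isHS_mk]
  exact ⟨fun i => hs_num S i.down, h⟩

theorem hs_pair (S : SymSys P G) {a b : Name P} (ha : S.IsHS a) (hb : S.IsHS b) :
    S.IsHS (Name.pair a b) := by
  obtain ⟨H, hH, hh⟩ := isHS_isSym S ha
  obtain ⟨K, hK, hk⟩ := isHS_isSym S hb
  have hsym : S.IsSym (Name.pair a b) := by
    refine ⟨H ⊓ K, S.inf_mem H hH K hK, fun g hg => ?_⟩
    unfold Name.pair
    simp only [act, S.smul_top]
    refine feq_pointwise _ _ _ _ (fun _ _ _ => Iff.rfl) ?_
    rintro ⟨t⟩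
    cases t
    · exact hk g hg.2
    · exact hh g hg.1
  unfold Name.pair at hsym ⊢
  rw [isHS_mk]
  refine ⟨?_, hsym⟩
  rintro ⟨t⟩
  cases t
  · exact hb
  · exact ha

theorem hs_opair (S : SymSys P G) {a b : Name P} (ha : S.IsHS a) (hb : S.IsHS b) :
    S.IsHS (Name.opair a b) :=
  hs_pair S (hs_pair S ha ha) (hs_pair S ha hb)

theorem hs_succN (S : SymSys P G) {a : Name P} (ha : S.IsHS a) : S.IsHS (succN a) := by
  obtain ⟨H, hH, hh⟩ := isHS_isSym S ha
  have hact : ∀ g : G, act g (succN a) = succN (act g a) := by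
    intro g
    cases a with
    | mk α A B =>
      simp only [succN, act, Name.mk.injEq, heq_eq_eq, true_and]
      constructor
      · funext o
        cases o <;> simp only [act]
      · funext o
        cases o with
        | none => exact S.smul_top g
        | some i => rfl
  have hsym : S.IsSym (succN a) :=
    ⟨H, hH, fun g hg => by rw [hact]; exact succN_congr (hh g hg)⟩
  cases a with
  | mk α A B =>
    simp only [succN] at hsym ⊢
    rw [isHS_mk]
    refine ⟨fun o => ?_, hsym⟩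
    cases o with
    | none => exact ha
    | some i => exact ((isHS_mk S A B).1 ha).1 i

theorem forces_isPair (S : SymSys P G) {k : ℕ} (v : Fin k → Name P) (hv : ∀ i, S.IsHS (v i))
    (x y z : Fin k) (p : P) :
    S.Forces (Fml.isPair x y z) v p ↔ FEq (v z) (Name.pair (v x) (v y)) p := by
  unfold Fml.isPair
  simp only [forces_all, forces_iff, forces_or, forces_mem, forces_eq, Fin.cons_zero, Fin.cons_succ]
  constructor
  · intro h
    refine feq_ext_hs S (hv z) (hs_pair S (hv x) (hv y)) fun w hw q hq => ?_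
    rw [fmem_pair]
    exact h w hw q hq
  · intro h w _ q hq
    rw [← fmem_pair]
    exact ⟨fmem_congr (feq_refl _ _) (feq_mono h hq),
      fmem_congr (feq_refl _ _) (feq_symm (feq_mono h hq))⟩

theorem forces_isOPair (S : SymSys P G) {k : ℕ} (v : Fin k → Name P) (hv : ∀ i, S.IsHS (v i))
    (x y z : Fin k) (p : P) :
    S.Forces (Fml.isOPair x y z) v p ↔ FEq (v z) (Name.opair (v x) (v y)) p := by
  unfold Fml.isOPair
  rw [forces_ex]
  constructor
  · intro h
    refine feq_dense fun q hq => ?_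
    obtain ⟨r, hr, s, hs, h1⟩ := h q hq
    rw [forces_ex] at h1
    obtain ⟨r', hr', t, ht, h2⟩ := h1 r le_rfl
    have hst : ∀ i, S.IsHS ((Fin.cons t (Fin.cons s v : Fin (k + 1) → Name P) :
        Fin (k + 2) → Name P) i) := hs_cons S ht (hs_cons S hs hv)
    rw [forces_and, forces_and, forces_isPair S _ hst, forces_isPair S _ hst,
      forces_isPair S _ hst] at h2
    obtain ⟨h3, h4, h5⟩ := h2
    refine ⟨r', hr'.trans hr, ?_⟩
    exact feq_trans h5 (pair_congr h3 h4)
  · intro h q hq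
    refine ⟨q, le_rfl, Name.pair (v x) (v x), hs_pair S (hv x) (hv x), ?_⟩
    rw [forces_ex]
    intro q' hq'
    refine ⟨q', le_rfl, Name.pair (v x) (v y), hs_pair S (hv x) (hv y), ?_⟩
    have hst := hs_cons S (hs_pair S (hv x) (hv y)) (hs_cons S (hs_pair S (hv x) (hv x)) hv)
    rw [forces_and, forces_and, forces_isPair S _ hst, forces_isPair S _ hst,
      forces_isPair S _ hst]
    exact ⟨feq_refl _ _, feq_refl _ _, feq_mono h (hq'.trans hq)⟩

theorem forces_relMem (S : SymSys P G) {k : ℕ} (v : Fin k → Name P) (hv : ∀ i, S.IsHS (v i))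
    (r x y : Fin k) (p : P) :
    S.Forces (Fml.relMem r x y) v p ↔ FMem (Name.opair (v x) (v y)) (v r) p := by
  unfold Fml.relMem
  rw [forces_ex]
  constructor
  · intro h
    refine fmem_dense fun q hq => ?_
    obtain ⟨s, hs, z, hz, h1, h2⟩ := h q hq
    rw [forces_isOPair S _ (hs_cons S hz hv)] at h1
    exact ⟨s, hs, fmem_congr h1 (feq_refl _ _) h2⟩
  · intro h q hq
    refine ⟨q, le_rfl, Name.opair (v x) (v y), hs_opair S (hv x) (hv y), ?_, fmem_mono h hq⟩
    rw [forces_isOPair S _ (hs_cons S (hs_opair S (hv x) (hv y)) hv)]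
    exact feq_refl _ _

theorem forces_isSucc (S : SymSys P G) {k : ℕ} (v : Fin k → Name P) (hv : ∀ i, S.IsHS (v i))
    (x s : Fin k) (p : P) :
    S.Forces (Fml.isSucc x s) v p ↔ FEq (v s) (succN (v x)) p := by
  unfold Fml.isSucc
  simp only [forces_all, forces_iff, forces_or, forces_mem, forces_eq, Fin.cons_zero, Fin.cons_succ]
  constructor
  · intro h
    refine feq_ext_hs S (hv s) (hs_succN S (hv x)) fun w hw q hq => ?_
    rw [fmem_succN]
    exact h w hw q hq
  · intro h w _ q hq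
    rw [← fmem_succN]
    exact ⟨fmem_congr (feq_refl _ _) (feq_mono h hq),
      fmem_congr (feq_refl _ _) (feq_symm (feq_mono h hq))⟩

theorem not_fmem_num_zero (x : Name P) (p : P) : ¬ FMem x (Name.num 0) p := by
  rw [fmem_num]
  intro h
  obtain ⟨r, _, m, hm, _⟩ := h p le_rfl
  exact absurd hm (Nat.not_lt_zero m)

/-- The semantic meaning of `isInductive`. -/
theorem forces_isInductive (S : SymSys P G) {k : ℕ} (v : Fin k → Name P) (hv : ∀ i, S.IsHS (v i))
    (w : Fin k) (p : P) :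
    S.Forces (Fml.isInductive w) v p ↔ FMem (Name.num 0) (v w) p ∧
      ∀ x, S.IsHS x → ∀ q ≤ p, FMem x (v w) q → FMem (succN x) (v w) q := by
  unfold Fml.isInductive
  rw [forces_and]
  refine and_congr ?_ ?_
  · rw [forces_ex]
    constructor
    · intro h
      refine fmem_dense fun q hq => ?_
      obtain ⟨r, hr, e, he, h1, h2⟩ := h q hq
      refine ⟨r, hr, fmem_congr ?_ (feq_refl _ _) h2⟩
      refine feq_ext_hs S he (hs_num S 0) fun y hy s hs => ?_
      exact ⟨fun h3 => absurd h3 (h1 y hy s hs), fun h3 => absurd h3 (not_fmem_num_zero y s)⟩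
    · intro h q hq
      refine ⟨q, le_rfl, Name.num 0, hs_num S 0, fun y _ s _ => not_fmem_num_zero y s, ?_⟩
      exact fmem_mono h hq
  · rw [forces_all]
    refine forall_congr' fun x => forall_congr' fun hx => ?_
    rw [forces_imp]
    refine forall_congr' fun q => forall_congr' fun hq => ?_
    rw [forces_mem]
    refine imp_congr Iff.rfl ?_
    rw [forces_ex]
    constructor
    · intro h
      refine fmem_dense fun r hr => ?_
      obtain ⟨s, hs, y, hy, h1, h2⟩ := h r hr
      rw [forces_isSucc S _ (hs_cons S hy (hs_cons S hx hv))] at h1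
      exact ⟨s, hs, fmem_congr h1 (feq_refl _ _) h2⟩
    · intro h r hr
      refine ⟨r, le_rfl, succN x, hs_succN S hx, ?_, fmem_mono h hr⟩
      rw [forces_isSucc S _ (hs_cons S (hs_succN S hx) (hs_cons S hx hv))]
      exact feq_refl _ _

theorem num_mem_of_inductive (S : SymSys P G) {a : Name P} {p : P} (h0 : FMem (Name.num 0) a p)
    (h : ∀ x, S.IsHS x → ∀ q ≤ p, FMem x a q → FMem (succN x) a q) (n : ℕ) :
    FMem (Name.num n) a p := by
  induction n with
  | zero => exact h0
  | succ n ih =>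
    exact fmem_congr (succN_num n p) (feq_refl _ _) (h (Name.num n) (hs_num S n) p le_rfl ih)

theorem omega_inductive (S : SymSys P G) (p : P) : FMem (Name.num 0) (Name.omega : Name P) p ∧
      ∀ x, S.IsHS x → ∀ q ≤ p, FMem x Name.omega q → FMem (succN x) Name.omega q := by
  refine ⟨(fmem_omega _ _).2 fun q _ => ⟨q, le_rfl, 0, feq_refl _ _⟩, fun x _ q _ h => ?_⟩
  rw [fmem_omega] at h ⊢
  intro r hr
  obtain ⟨s, hs, m, hm⟩ := h r hr
  exact ⟨s, hs, m + 1, feq_trans (succN_congr hm) (succN_num m s)⟩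

theorem forces_isOmega (S : SymSys P G) {k : ℕ} (v : Fin k → Name P) (hv : ∀ i, S.IsHS (v i))
    (w : Fin k) (p : P) : S.Forces (Fml.isOmega w) v p ↔ FEq (v w) Name.omega p := by
  unfold Fml.isOmega
  rw [forces_and, forces_isInductive S v hv]
  constructor
  · rintro ⟨⟨h0, h1⟩, h2⟩
    refine feq_ext_hs S (hv w) (hs_omega S) fun x hx q hq => ⟨fun h3 => ?_, fun h3 => ?_⟩
    · have h4 := h2 Name.omega (hs_omega S)
      rw [forces_imp] at h4
      have h5 := h4 q hq
      rw [forces_isInductive S _ (hs_cons S (hs_omega S) hv)] at h5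
      have h6 := h5 (omega_inductive S q) x hx
      rw [forces_imp] at h6
      exact h6 q le_rfl h3
    · rw [fmem_omega] at h3
      refine fmem_dense fun r hr => ?_
      obtain ⟨s, hs, m, hm⟩ := h3 r hr
      exact ⟨s, hs, fmem_congr (feq_symm hm) (feq_refl _ _)
        (fmem_mono (num_mem_of_inductive S h0 h1 m) (hs.trans (hr.trans hq)))⟩
  · intro h
    have hmem : ∀ x : Name P, ∀ q ≤ p, FMem x (v w) q ↔ FMem x Name.omega q := fun x q hq =>
      ⟨fmem_congr (feq_refl _ _) (feq_mono h hq),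
        fmem_congr (feq_refl _ _) (feq_symm (feq_mono h hq))⟩
    refine ⟨⟨(hmem _ p le_rfl).2 (omega_inductive S p).1, fun x hx q hq h1 => ?_⟩, ?_⟩
    · exact (hmem _ q hq).2 ((omega_inductive S p).2 x hx q hq ((hmem _ q hq).1 h1))
    · intro a ha
      rw [forces_imp]
      intro q hq h1
      rw [forces_isInductive S _ (hs_cons S ha hv)] at h1
      intro x hx
      rw [forces_imp]
      intro r hr h2
      have h3 : FMem x Name.omega r := (hmem x r (hr.trans hq)).1 h2
      rw [fmem_omega] at h3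
      refine fmem_dense fun s hs => ?_
      obtain ⟨t, ht, m, hm⟩ := h3 s hs
      exact ⟨t, ht, fmem_congr (feq_symm hm) (feq_refl _ _)
        (fmem_mono (num_mem_of_inductive S h1.1 h1.2 m) (ht.trans (hs.trans hr)))⟩

theorem forces_memReals (S : SymSys P G) {k : ℕ} (v : Fin k → Name P) (hv : ∀ i, S.IsHS (v i))
    (r x : Fin k) (p : P) (h : S.Forces (Fml.isReals r) v p) :
    FMem (v x) (v r) p ↔
      ∀ z : Name P, S.IsHS z → ∀ q ≤ p, FMem z (v x) q → FMem z Name.omega q := by
  unfold Fml.isReals at h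
  rw [forces_ex] at h
  -- the key equivalence, densely
  have key : ∀ q ≤ p, ∃ s ≤ q, ∀ t ≤ s, (FMem (v x) (v r) t ↔
      ∀ z : Name P, S.IsHS z → ∀ q ≤ t, FMem z (v x) q → FMem z Name.omega q) := by
    intro q hq
    obtain ⟨s, hs, w, hw, h1, h2⟩ := h q hq
    rw [forces_isOmega S _ (hs_cons S hw hv)] at h1
    refine ⟨s, hs, fun t ht => ?_⟩
    have h3 := h2 (v x) (hv x)
    rw [forces_iff] at h3
    have h4 := h3 t ht
    have h1' : FEq w Name.omega s := h1
    have h5 : FMem (v x) (v r) t ↔ ∀ z : Name P, S.IsHS z →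
        S.Forces (Fml.imp (Fml.mem 0 1) (Fml.mem 0 2))
          (Fin.cons z (Fin.cons (v x) (Fin.cons w v : Fin (k + 1) → Name P) :
            Fin (k + 2) → Name P) : Fin (k + 3) → Name P) t := h4
    rw [h5]
    refine forall_congr' fun z => forall_congr' fun hz => ?_
    rw [forces_imp]
    refine forall_congr' fun q' => forall_congr' fun hq' => ?_
    have h6 : FEq w Name.omega q' := feq_mono h1' (hq'.trans ht)
    constructor
    · intro h7 h8
      have h9 : FMem z w q' := h7 h8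
      exact fmem_congr (feq_refl _ _) h6 h9
    · intro h7 h8
      have h9 : FMem z Name.omega q' := h7 h8
      exact (fmem_congr (feq_refl _ _) (feq_symm h6) h9 : FMem z w q')
  constructor
  · intro h1 z hz q hq h2
    refine fmem_dense fun q' hq' => ?_
    obtain ⟨s, hs, h3⟩ := key q' (hq'.trans hq)
    exact ⟨s, hs, (h3 s le_rfl).1 (fmem_mono h1 (hs.trans (hq'.trans hq))) z hz s le_rfl
      (fmem_mono h2 (hs.trans hq'))⟩
  · intro h1
    refine fmem_dense fun q hq => ?_
    obtain ⟨s, hs, h3⟩ := key q hq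
    exact ⟨s, hs, (h3 s le_rfl).2 fun z hz t ht h4 => h1 z hz t (ht.trans (hs.trans hq)) h4⟩

/-- Module B3. -/
theorem st_B3 : ST_setFacts.{u} := by
  intro P G _ _ _ _ S
  exact
    { hsNum := hs_num S
      hsOmega := hs_omega S
      hsPair := fun _ _ ha hb => hs_pair S ha hb
      hsOpair := fun _ _ ha hb => hs_opair S ha hb
      opairInj := fun _ _ _ _ _ h => opair_inj h
      numInj := fun _ _ _ h => num_inj h
      relMem := fun v hv r x y p => forces_relMem S v hv r x y p
      isOmega := fun v hv w p => forces_isOmega S v hv w p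
      isSucc := fun v hv s x n p h => by
        rw [forces_isSucc S v hv]
        have h1 : FEq (succN (v x)) (Name.num (n + 1)) p := feq_trans (succN_congr h) (succN_num n p)
        exact ⟨fun h2 => feq_trans h2 h1, fun h2 => feq_trans h2 (feq_symm h1)⟩
      memReals := fun v hv r x p h => forces_memReals S v hv r x p h }

end Sys

end Pool.Agent.Helper94.SP
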