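import Pool.Agent.Helper94.SP.A12

/-!
# Module A11: closed conditions are dense
-/

open Cardinal Set
open scoped Pointwise

namespace Pool.Agent.Helper94.SP

open Pool.Agent.Helper46.SP

variable {Q : Par} (S : CodeSys Q)

/-- The states of the closing-off construction. -/
def St (ζ : Stg Q) : Set (RC S × Set (Idx Q)) :=
  {x | x.1 ∈ CC ζ ∧ x.2 ⊆ below ζ ∧ #x.2 ≤ Q.K ∧ COver x.1 x.2}

variable {S}

/-- Supports of conditions. -/
theorem exists_over (hO : OFacts S) (hRN : RNFacts Q) {ζ : Stg Q} {c : RC S} (hc : c ∈ CC ζ)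
    {Y : Set (Idx Q)} (hY : Y ⊆ below ζ) (hYK : #Y ≤ Q.K) :
    ∃ Y', Y ⊆ Y' ∧ (c, Y') ∈ St S ζ := by
  classical
  have hK := K_inf Q
  have h1 : ∀ t ∈ c, ∃ w : Set (Idx Q), w ⊆ below ζ ∧ #w ≤ Q.K ∧ UOver t.1 w ∧ lab t.2.1 ∈ w ∧
      t.2.2.Over w := by
    intro t ht
    have hlt : (tlev t : Stg Q) < ζ := CC_lev hc t ht
    have hsn : SN (tlev t) t.1 := hO.names ζ c hc t ht
    obtain ⟨z, hz, hzf⟩ := hsn.inv
    have hu : UOver t.1 z := ⟨z, subset_rfl, by rw [hsn.lev]; exact hz, hzf⟩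
    have hu' := hO.uoverBelow (tlev t) t.1 z hsn hu
    obtain ⟨w, hw, hwb, hwo⟩ := hRN.over_univ t.2.2
    have hlab : lab t.2.1 ∈ (below ζ : Set (Idx Q)) := by
      intro ξ hξ
      have h2 : some t.2.1.1 = some ξ := hξ
      rw [Option.some_inj] at h2
      rw [← h2]
      exact hlt
    refine ⟨(z ∩ below (tlev t : Stg Q)) ∪ (w ∪ {lab t.2.1}), ?_, ?_, ?_, ?_, ?_⟩
    · refine Set.union_subset (Set.inter_subset_right.trans (below_mono hlt.le))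
        (Set.union_subset (hwb ζ) (Set.singleton_subset_iff.2 hlab))
    · refine (mk_union_le _ _).trans ?_
      have h3 : #(z ∩ below (tlev t : Stg Q) : Set (Idx Q)) ≤ Q.K :=
        ((mk_le_mk_of_subset Set.inter_subset_left).trans hz).trans (Q.κ_le_K _)
      have h4 : #(w ∪ {lab t.2.1} : Set (Idx Q)) ≤ Q.K :=
        (Cardinal.le_aleph0_iff_set_countable.2 (hw.union (Set.countable_singleton _))).trans hK
      exact (add_le_add h3 h4).trans (add_eq_self hK).le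
    · exact hO.uoverMono _ _ _ hu' Set.subset_union_left
    · exact Or.inr (Or.inr rfl)
    · exact hRN.over_mono _ _ _ hwo (Set.subset_union_left.trans Set.subset_union_right)
  choose! w hw1 hw2 hw3 hw4 hw5 using h1
  refine ⟨Y ∪ ⋃ t ∈ c, w t, Set.subset_union_left, hc, ?_, ?_, ?_⟩
  · exact Set.union_subset hY (Set.iUnion₂_subset hw1)
  · refine (mk_union_le _ _).trans ?_
    have h2 : #(⋃ t ∈ c, w t : Set (Idx Q)) ≤ Q.K := mk_biUnion_le hK _ _ (CC_card hc) hw2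
    exact (add_le_add hYK h2).trans (add_eq_self hK).le
  · intro t ht
    have hs : w t ⊆ Y ∪ ⋃ t ∈ c, w t :=
      (Set.subset_biUnion_of_mem (u := w) ht).trans Set.subset_union_right
    exact ⟨hO.uoverMono _ _ _ (hw3 t ht) hs, hs (hw4 t ht), hRN.over_mono _ _ _ (hw5 t ht) hs⟩

/-- Unions of chains of states. -/
theorem St_sSup (hC : CFacts S) (hO : OFacts S) (hRN : RNFacts Q) (ζ : Stg Q)
    (D : Set (RC S × Set (Idx Q))) (hD : D ⊆ St S ζ) (hne : D.Nonempty)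
    (hch : IsChain (· ≤ ·) D) (hDc : #D ≤ Q.K) : sSup D ∈ St S ζ := by
  have hK := K_inf Q
  have h1 : (sSup D).1 = ⋃₀ (Prod.fst '' D) := by
    rw [Prod.fst_sSup, Set.sSup_eq_sUnion]
  have h2 : (sSup D).2 = ⋃₀ (Prod.snd '' D) := by
    rw [Prod.snd_sSup, Set.sSup_eq_sUnion]
  have hfst : #(⋃₀ (Prod.fst '' D) : RC S) ≤ Q.K := by
    apply mk_sUnion_le' hK
    · exact mk_image_le.trans hDc
    · rintro _ ⟨x, hx, rfl⟩
      exact CC_card (hD hx).1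
  refine ⟨?_, ?_, ?_, ?_⟩
  · rw [h1]
    apply hC.directed
    · rintro _ ⟨x, hx, rfl⟩
      exact (hD hx).1
    · apply IsChain.directedOn
      rintro _ ⟨x, hx, rfl⟩ _ ⟨y, hy, rfl⟩ _
      rcases hch.total hx hy with h | h
      · exact Or.inl h.1
      · exact Or.inr h.1
    · exact hfst
  · rw [h2]
    rintro i ⟨_, ⟨x, hx, rfl⟩, hi⟩
    exact (hD hx).2.1 hi
  · rw [h2]
    apply mk_sUnion_le' hK
    · exact mk_image_le.trans hDc
    · rintro _ ⟨x, hx, rfl⟩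
      exact (hD hx).2.2.1
  · rw [h1, h2]
    rintro t ⟨_, ⟨x, hx, rfl⟩, ht⟩
    obtain ⟨h3, h4, h5⟩ := (hD hx).2.2.2 t ht
    have hs : x.2 ⊆ ⋃₀ (Prod.snd '' D) := Set.subset_sUnion_of_mem ⟨x, hx, rfl⟩
    exact ⟨hO.uoverMono _ _ _ h3 hs, hs h4, hRN.over_mono _ _ _ h5 hs⟩

/-- Module A11. -/
theorem st_A11 (htot : ST_tot) (hcount : ST_count) (hCF : ST_cfacts) (hOF : ST_ofacts)
    (hRNF : ST_RN) : ST_dense := by
  classical
  intro Q S ζ c Y₀ hc hY₀ hY₀K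
  have hC := hCF Q S
  have hO := hOF Q S
  have hRN := hRNF Q
  have hK := K_inf Q
  obtain ⟨θ, hθ, hθη, hθK⟩ := Q.K_reg
  -- one task
  have htask : ∀ (B : S.U) (l : Lab Q), (l.1 : Stg Q) < ζ → SN l.1 B → ∀ x ∈ St S ζ,
      ∃ y ∈ St S ζ, x ≤ y ∧ ∃ v, (B, l, v) ∈ y.1 := by
    intro B l hl hB x hx
    obtain ⟨c', hc', hcc', v, hv⟩ := htot Q S ζ x.1 hx.1 B l hl hB
    obtain ⟨Y', hY', hs⟩ := exists_over hO hRN hc' hx.2.1 hx.2.2.1
    exact ⟨(c', Y'), hs, ⟨hcc', hY'⟩, v, hv⟩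
  -- all tasks over the second component
  have hstep : ∀ x ∈ St S ζ, ∃ y ∈ St S ζ, x ≤ y ∧
      ∀ (A : S.U) (l : Lab Q), SN (S.lev A) A → UOver A x.2 → l.1 = S.lev A → lab l ∈ x.2 →
        ∃ v, (A, l, v) ∈ y.1 := by
    intro x hx
    let ι : Type := {A : S.U // SN (S.lev A) A ∧ UOver A x.2} × {l : Lab Q // lab l ∈ x.2}
    have hι : #ι ≤ Q.K := by
      have h1 : #{l : Lab Q // lab l ∈ x.2} ≤ Q.K := by
        refine le_trans ?_ hx.2.2.1
        refine mk_le_of_injective (f := fun l => (⟨lab l.1, l.2⟩ : x.2)) ?_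
        rintro ⟨l, hl⟩ ⟨l', hl'⟩ h
        simp only [Subtype.mk.injEq, lab, Prod.mk.injEq, Option.some_inj] at h
        exact Subtype.ext (Prod.ext h.1 h.2)
      calc #ι = #{A : S.U // SN (S.lev A) A ∧ UOver A x.2} * #{l : Lab Q // lab l ∈ x.2} := by
            rw [mk_prod, lift_id, lift_id]
        _ ≤ Q.K * Q.K := mul_le_mul' ((hcount Q S x.2).1 hx.2.2.1) h1
        _ = Q.K := mul_eq_self hK
    obtain ⟨y, hy, hxy, hR⟩ := tasks_exists Q.K hK hι (St S ζ)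
      (fun D hD hne hch hDc => St_sSup hC hO hRN ζ D hD hne hch hDc)
      (fun i y => i.2.1.1 = S.lev i.1.1 → ∃ v, (i.1.1, i.2.1, v) ∈ y.1)
      (fun i y y' hyy' h he => by
        obtain ⟨v, hv⟩ := h he
        exact ⟨v, hyy'.1 hv⟩)
      (fun i y hy => by
        by_cases he : i.2.1.1 = S.lev i.1.1
        · have hl : (i.2.1.1 : Stg Q) < ζ := hx.2.1 i.2.2 _ rfl
          obtain ⟨y', hy', hyy', hv⟩ := htask i.1.1 i.2.1 hl (by rw [he]; exact i.1.2.1) y hy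
          exact ⟨y', hy', hyy', fun _ => hv⟩
        · exact ⟨y, hy, le_rfl, fun h => absurd h he⟩) x hx
    exact ⟨y, hy, hxy, fun A l hA hAx hl hlx => hR ⟨⟨A, hA, hAx⟩, ⟨l, hlx⟩⟩ hl⟩
  obtain ⟨Y₁, hY₁, hs₁⟩ := exists_over hO hRN hc hY₀ hY₀K
  obtain ⟨ι, _, x, hmx, hxV, hne, hb, hsup, h0, hnext⟩ := close_exists Q.K θ hK hθ hθK
    (St S ζ) (fun D hD hne hch hDc => St_sSup hC hO hRN ζ D hD hne hch hDc) _ hstep (c, Y₁) hs₁
  have h1 : (sSup (Set.range x)).1 = ⋃ i, (x i).1 := by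
    rw [Prod.fst_sSup, Set.sSup_eq_sUnion, ← Set.range_comp, Set.sUnion_range]
    rfl
  have h2 : (sSup (Set.range x)).2 = ⋃ i, (x i).2 := by
    rw [Prod.snd_sSup, Set.sSup_eq_sUnion, ← Set.range_comp, Set.sUnion_range]
    rfl
  obtain ⟨i₀⟩ := hne
  refine ⟨(sSup (Set.range x)).1, (sSup (Set.range x)).2, ⟨hC.mono _ _ le_top hsup.1, hsup.2.2.1,
    hsup.2.2.2, ?_⟩, ?_, hsup.1, ?_, hsup.2.1⟩
  · rintro A l hA ⟨w, hw, hwκ, hwf⟩ hl hlab
    rw [h2] at hw hlab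
    obtain ⟨k, hk⟩ := subset_of_small (fun i => (x i).2) (fun i j hij => (hmx hij).2) hb w
      (hwκ.trans_lt (hθη _)) hw
    obtain ⟨k', hk'⟩ := Set.mem_iUnion.1 hlab
    obtain ⟨m, hm⟩ := hb Bool (fun b => if b then k else k')
      (by rw [mk_bool]; exact_mod_cast hθ.nat_lt 2)
    have hkm : max k k' < m := by
      rw [max_lt_iff]
      exact ⟨by simpa using hm true, by simpa using hm false⟩
    obtain ⟨y, hy, hy1, hy2⟩ := hnext _ _ hkm
    obtain ⟨v, hv⟩ := hy2 A l hA ⟨w, (hk.trans (hmx (le_max_left k k')).2).trans hy1.2, hwκ, hwf⟩ hl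
      (hy1.2 ((hmx (le_max_right k k')).2 hk'))
    have hv' : (A, l, v) ∈ (sSup (Set.range x)).1 := by
      rw [h1]
      exact Set.mem_iUnion.2 ⟨m, hv⟩
    exact ⟨v, (hsup.2.2.2 _ hv').2.2, hv'⟩
  · rw [h1]
    exact (h0 i₀).1.trans (Set.subset_iUnion (fun i => (x i).1) i₀)
  · rw [h2]
    exact hY₁.trans ((h0 i₀).2.trans (Set.subset_iUnion (fun i => (x i).2) i₀))

end Pool.Agent.Helper94.SP
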