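import Pool.Agent.Helper46.SP.Spec

/-!
# Module B1: basic facts on forced equality and membership
-/

universe u

namespace Pool.Agent.Helper94.SP

open Pool.Agent.Helper46.SP Pool.Agent.Helper46.SP.Name

variable {P : Type u} [Preorder P]

theorem feq_mk {α β : Type u} (A : α → Name P) (B : α → P) (A' : β → Name P) (B' : β → P) (p : P) :
    FEq (Name.mk α A B) (Name.mk β A' B') p ↔
    (∀ i : α, ∀ q ≤ p, q ≤ B i → ∃ r ≤ q, ∃ j : β, r ≤ B' j ∧ FEq (A i) (A' j) r) ∧
    (∀ j : β, ∀ q ≤ p, q ≤ B' j → ∃ r ≤ q, ∃ i : α, r ≤ B i ∧ FEq (A i) (A' j) r) := by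
  simp only [FEq]

theorem fmem_mk {β : Type u} (a : Name P) (A' : β → Name P) (B' : β → P) (p : P) :
    FMem a (Name.mk β A' B') p ↔ ∀ q ≤ p, ∃ r ≤ q, ∃ j : β, r ≤ B' j ∧ FEq a (A' j) r := by
  simp only [FMem]

theorem feq_refl (a : Name P) (p : P) : FEq a a p := by
  induction a generalizing p with
  | mk α A B ih =>
    rw [feq_mk]
    exact ⟨fun i q _ hi => ⟨q, le_rfl, i, hi, ih i q⟩, fun i q _ hi => ⟨q, le_rfl, i, hi, ih i q⟩⟩

theorem feq_symm {a b : Name P} {p : P} (h : FEq a b p) : FEq b a p := by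
  induction a generalizing b p with
  | mk α A B ih =>
    cases b with
    | mk β A' B' =>
      rw [feq_mk] at h ⊢
      refine ⟨fun j q hq hj => ?_, fun i q hq hi => ?_⟩
      · obtain ⟨r, hr, i, hi, he⟩ := h.2 j q hq hj
        exact ⟨r, hr, i, hi, ih i he⟩
      · obtain ⟨r, hr, j, hj, he⟩ := h.1 i q hq hi
        exact ⟨r, hr, j, hj, ih i he⟩

theorem feq_mono {a b : Name P} {p q : P} (h : FEq a b p) (hq : q ≤ p) : FEq a b q := by
  cases a with
  | mk α A B =>
    cases b with
    | mk β A' B' =>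
      rw [feq_mk] at h ⊢
      exact ⟨fun i s hs => h.1 i s (hs.trans hq), fun i s hs => h.2 i s (hs.trans hq)⟩

theorem feq_trans {a b c : Name P} {p : P} (h1 : FEq a b p) (h2 : FEq b c p) : FEq a c p := by
  induction a generalizing b c p with
  | mk α A B ih =>
    cases b with
    | mk β A' B' =>
      cases c with
      | mk γ A'' B'' =>
        rw [feq_mk] at h1 h2 ⊢
        refine ⟨fun i q hq hi => ?_, fun k q hq hk => ?_⟩
        · obtain ⟨r, hr, j, hj, he⟩ := h1.1 i q hq hi
          obtain ⟨s, hs, k, hk, he'⟩ := h2.1 j r (hr.trans hq) hj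
          exact ⟨s, hs.trans hr, k, hk, ih i (feq_mono he hs) he'⟩
        · obtain ⟨r, hr, j, hj, he⟩ := h2.2 k q hq hk
          obtain ⟨s, hs, i, hi, he'⟩ := h1.2 j r (hr.trans hq) hj
          exact ⟨s, hs.trans hr, i, hi, ih i he' (feq_mono he hs)⟩

theorem feq_dense {a b : Name P} {p : P} (h : ∀ q ≤ p, ∃ r ≤ q, FEq a b r) : FEq a b p := by
  cases a with
  | mk α A B =>
    cases b with
    | mk β A' B' =>
      rw [feq_mk]
      refine ⟨fun i q hq hi => ?_, fun j q hq hj => ?_⟩
      · obtain ⟨r, hr, he⟩ := h q hq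
        rw [feq_mk] at he
        obtain ⟨s, hs, j, hj, he'⟩ := he.1 i r le_rfl (hr.trans hi)
        exact ⟨s, hs.trans hr, j, hj, he'⟩
      · obtain ⟨r, hr, he⟩ := h q hq
        rw [feq_mk] at he
        obtain ⟨s, hs, i, hi, he'⟩ := he.2 j r le_rfl (hr.trans hj)
        exact ⟨s, hs.trans hr, i, hi, he'⟩

theorem fmem_mono {a b : Name P} {p q : P} (h : FMem a b p) (hq : q ≤ p) : FMem a b q := by
  cases b with
  | mk β A' B' =>
    rw [fmem_mk] at h ⊢
    exact fun s hs => h s (hs.trans hq)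

theorem fmem_dense {a b : Name P} {p : P} (h : ∀ q ≤ p, ∃ r ≤ q, FMem a b r) : FMem a b p := by
  cases b with
  | mk β A' B' =>
    rw [fmem_mk]
    intro q hq
    obtain ⟨r, hr, he⟩ := h q hq
    rw [fmem_mk] at he
    obtain ⟨s, hs, j, hj, he'⟩ := he r le_rfl
    exact ⟨s, hs.trans hr, j, hj, he'⟩

theorem fmem_congr {a a' b b' : Name P} {p : P} (h1 : FEq a a' p) (h2 : FEq b b' p)
    (h : FMem a b p) : FMem a' b' p := by
  cases b with
  | mk β A B =>
    cases b' with
    | mk γ A' B' =>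
      rw [fmem_mk] at h ⊢
      rw [feq_mk] at h2
      intro q hq
      obtain ⟨r, hr, j, hj, he⟩ := h q hq
      obtain ⟨s, hs, k, hk, he'⟩ := h2.1 j r (hr.trans hq) hj
      exact ⟨s, hs.trans hr, k, hk, feq_trans (feq_trans (feq_symm (feq_mono h1 ((hs.trans hr).trans hq)))
        (feq_mono he hs)) he'⟩

theorem fmem_elem {ι : Type u} (A : ι → Name P) (B : ι → P) (i : ι) {p : P} (h : p ≤ B i) :
    FMem (A i) (Name.mk ι A B) p := by
  rw [fmem_mk]
  exact fun q hq => ⟨q, le_rfl, i, hq.trans h, feq_refl _ _⟩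

theorem feq_ext {a b : Name P} {p : P}
    (h : ∀ x : Name P, ∀ q ≤ p, FMem x a q ↔ FMem x b q) : FEq a b p := by
  cases a with
  | mk α A B =>
    cases b with
    | mk β A' B' =>
      rw [feq_mk]
      refine ⟨fun i q hq hi => ?_, fun j q hq hj => ?_⟩
      · have := (h (A i) q hq).1 (fmem_elem A B i hi)
        rw [fmem_mk] at this
        exact this q le_rfl
      · have := (h (A' j) q hq).2 (fmem_elem A' B' j hj)
        rw [fmem_mk] at this
        obtain ⟨r, hr, i, hi, he⟩ := this q le_rfl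
        exact ⟨r, hr, i, hi, feq_symm he⟩

/-- Module B1. -/
theorem st_B1 : ST_basicEq.{u} := by
  intro P _
  exact
    { refl := feq_refl
      symm := fun _ _ _ h => feq_symm h
      trans := fun _ _ _ _ h h' => feq_trans h h'
      mono := fun _ _ _ _ h h' => feq_mono h h'
      dense := fun _ _ _ h => feq_dense h
      memMono := fun _ _ _ _ h h' => fmem_mono h h'
      memDense := fun _ _ _ h => fmem_dense h
      memCongr := fun _ _ _ _ _ h h' h'' => fmem_congr h h' h''
      elem := fun _ A B i _ h => fmem_elem A B i h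
      ext := fun _ _ _ h => feq_ext h }

end Pool.Agent.Helper94.SP
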