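import Pool.Agent.Helper94.SP.B1

/-!
# Module B2: facts on the forcing relation of the symmetric model
-/

universe u

namespace Pool.Agent.Helper94.SP

open Pool.Agent.Helper46.SP Pool.Agent.Helper46.SP.Name

section Act

variable {P G : Type u} [Group G] [MulAction G P]

theorem act_one (a : Name P) : act (1 : G) a = a := by
  induction a with
  | mk α A B ih =>
    simp only [act, one_smul, Name.mk.injEq, heq_eq_eq, true_and, and_true]
    funext i
    exact ih i

theorem act_act (g h : G) (a : Name P) : act g (act h a) = act (g * h) a := by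
  induction a with
  | mk α A B ih =>
    simp only [act, mul_smul, Name.mk.injEq, heq_eq_eq, true_and, and_true]
    funext i
    exact ih i

theorem act_inv_act (g : G) (a : Name P) : act g⁻¹ (act g a) = a := by
  rw [act_act, inv_mul_cancel, act_one]

theorem act_act_inv (g : G) (a : Name P) : act g (act g⁻¹ a) = a := by
  rw [act_act, mul_inv_cancel, act_one]

end Act

section Sys

variable {P G : Type u} [Preorder P] [OrderTop P] [Group G] [MulAction G P]

theorem le_smul (S : SymSys P G) (g : G) {p q : P} (h : q ≤ g • p) : g⁻¹ • q ≤ p := by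
  have := S.smul_le g⁻¹ _ _ h
  rwa [inv_smul_smul] at this

theorem smul_le_of (S : SymSys P G) (g : G) {p q : P} (h : q ≤ g⁻¹ • p) : g • q ≤ p := by
  have := S.smul_le g _ _ h
  rwa [smul_inv_smul] at this

theorem feq_act (S : SymSys P G) (g : G) {a b : Name P} {p : P} (h : FEq a b p) :
    FEq (act g a) (act g b) (g • p) := by
  induction a generalizing b p with
  | mk α A B ih =>
    cases b with
    | mk β A' B' =>
      simp only [act]
      rw [feq_mk] at h ⊢
      refine ⟨fun i q hq hi => ?_, fun j q hq hj => ?_⟩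
      · obtain ⟨r, hr, j, hj, he⟩ := h.1 i (g⁻¹ • q) (le_smul S g hq) (le_smul S g hi)
        exact ⟨g • r, smul_le_of S g hr, j, S.smul_le g _ _ hj, ih i he⟩
      · obtain ⟨r, hr, i, hi, he⟩ := h.2 j (g⁻¹ • q) (le_smul S g hq) (le_smul S g hj)
        exact ⟨g • r, smul_le_of S g hr, i, S.smul_le g _ _ hi, ih i he⟩

theorem fmem_act (S : SymSys P G) (g : G) {a b : Name P} {p : P} (h : FMem a b p) :
    FMem (act g a) (act g b) (g • p) := by
  cases b with
  | mk β A' B' =>
    simp only [act]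
    rw [fmem_mk] at h ⊢
    intro q hq
    obtain ⟨r, hr, j, hj, he⟩ := h (g⁻¹ • q) (le_smul S g hq)
    exact ⟨g • r, smul_le_of S g hr, j, S.smul_le g _ _ hj, feq_act S g he⟩

theorem isSym_act (S : SymSys P G) (g : G) {a : Name P} (h : S.IsSym a) : S.IsSym (act g a) := by
  obtain ⟨H, hH, hh⟩ := h
  obtain ⟨K, hK, hk⟩ := S.conj_mem H hH g
  refine ⟨K, hK, fun k hkK => ?_⟩
  have h1 := feq_act S g (hh _ (hk k hkK))
  rw [S.smul_top, act_act] at h1
  rw [act_act]
  have : g * (g⁻¹ * k * g) = k * g := by group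
  rwa [this] at h1

theorem isHS_mk (S : SymSys P G) {α : Type u} (A : α → Name P) (B : α → P) :
    S.IsHS (Name.mk α A B) ↔ (∀ i : α, S.IsHS (A i)) ∧ S.IsSym (Name.mk α A B) := by
  simp only [SymSys.IsHS]

theorem isHS_isSym (S : SymSys P G) {a : Name P} (h : S.IsHS a) : S.IsSym a := by
  cases a with
  | mk α A B => exact ((isHS_mk S A B).1 h).2

theorem isHS_act (S : SymSys P G) (g : G) {a : Name P} (h : S.IsHS a) : S.IsHS (act g a) := by
  induction a with
  | mk α A B ih =>
    rw [isHS_mk] at h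
    have h2 := isSym_act S g h.2
    simp only [act] at h2 ⊢
    rw [isHS_mk]
    exact ⟨fun i => ih i (h.1 i), h2⟩

theorem feq_ext_hs (S : SymSys P G) {a b : Name P} {p : P} (ha : S.IsHS a) (hb : S.IsHS b)
    (h : ∀ x : Name P, S.IsHS x → ∀ q ≤ p, FMem x a q ↔ FMem x b q) : FEq a b p := by
  cases a with
  | mk α A B =>
    cases b with
    | mk β A' B' =>
      rw [isHS_mk] at ha hb
      rw [feq_mk]
      refine ⟨fun i q hq hi => ?_, fun j q hq hj => ?_⟩
      · have := (h (A i) (ha.1 i) q hq).1 (fmem_elem A B i hi)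
        rw [fmem_mk] at this
        exact this q le_rfl
      · have := (h (A' j) (hb.1 j) q hq).2 (fmem_elem A' B' j hj)
        rw [fmem_mk] at this
        obtain ⟨r, hr, i, hi, he⟩ := this q le_rfl
        exact ⟨r, hr, i, hi, feq_symm he⟩

theorem forces_mono (S : SymSys P G) {k : ℕ} (φ : Fml k) (v : Fin k → Name P) {p q : P}
    (h : S.Forces φ v p) (hq : q ≤ p) : S.Forces φ v q := by
  induction φ with
  | mem i j => exact fmem_mono h hq
  | eq i j => exact feq_mono h hq
  | neg φ ih => exact fun r hr => h r (hr.trans hq)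
  | and φ ψ ih1 ih2 => exact ⟨ih1 v h.1, ih2 v h.2⟩
  | all φ ih => exact fun x hx => ih _ (h x hx)

theorem forces_dense (S : SymSys P G) {k : ℕ} (φ : Fml k) (v : Fin k → Name P) {p : P}
    (h : ∀ q ≤ p, ∃ r ≤ q, S.Forces φ v r) : S.Forces φ v p := by
  induction φ with
  | mem i j => exact fmem_dense h
  | eq i j => exact feq_dense h
  | neg φ ih =>
    intro q hq hf
    obtain ⟨r, hr, hn⟩ := h q hq
    exact hn r le_rfl (forces_mono S φ v hf hr)
  | and φ ψ ih1 ih2 =>
    exact ⟨ih1 v fun q hq => (h q hq).imp fun r hr => ⟨hr.1, hr.2.1⟩,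
      ih2 v fun q hq => (h q hq).imp fun r hr => ⟨hr.1, hr.2.2⟩⟩
  | all φ ih => exact fun x hx => ih _ fun q hq => (h q hq).imp fun r hr => ⟨hr.1, hr.2 x hx⟩

theorem forces_congr (S : SymSys P G) {k : ℕ} (φ : Fml k) (v w : Fin k → Name P) {p : P}
    (hv : ∀ i, FEq (v i) (w i) p) (h : S.Forces φ v p) : S.Forces φ w p := by
  induction φ generalizing p with
  | mem i j => exact fmem_congr (hv i) (hv j) h
  | eq i j => exact feq_trans (feq_symm (hv i)) (feq_trans h (hv j))
  | neg φ ih =>
    exact fun q hq hf => h q hq (ih w v (fun i => feq_symm (feq_mono (hv i) hq)) hf)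
  | and φ ψ ih1 ih2 => exact ⟨ih1 v w hv h.1, ih2 v w hv h.2⟩
  | all φ ih =>
    intro x hx
    refine ih (Fin.cons x v) (Fin.cons x w) (fun i => ?_) (h x hx)
    refine Fin.cases ?_ (fun j => ?_) i
    · exact feq_refl _ _
    · exact hv j

theorem cons_act {k : ℕ} (g : G) (x : Name P) (v : Fin k → Name P) :
    (fun i => act g (Fin.cons (α := fun _ => Name P) x v i)) =
      Fin.cons (α := fun _ => Name P) (act g x) (fun i => act g (v i)) := by
  funext i
  refine Fin.cases ?_ (fun j => ?_) i <;> rfl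

theorem forces_act (S : SymSys P G) {k : ℕ} (φ : Fml k) (v : Fin k → Name P) {p : P} (g : G)
    (h : S.Forces φ v p) : S.Forces φ (fun i => act g (v i)) (g • p) := by
  induction φ generalizing p g with
  | mem i j => exact fmem_act S g h
  | eq i j => exact feq_act S g h
  | neg φ ih =>
    intro q hq hf
    refine h (g⁻¹ • q) (le_smul S g hq) ?_
    have := ih (fun i => act g (v i)) g⁻¹ hf
    simpa only [act_inv_act] using this
  | and φ ψ ih1 ih2 => exact ⟨ih1 v g h.1, ih2 v g h.2⟩
  | all φ ih =>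
    intro x hx
    have h1 := ih (Fin.cons (act g⁻¹ x) v) g (h (act g⁻¹ x) (isHS_act S g⁻¹ hx))
    rw [cons_act, act_act_inv] at h1
    exact h1

theorem forces_neg (S : SymSys P G) {k : ℕ} (φ : Fml k) (v : Fin k → Name P) (p : P) :
    S.Forces (Fml.neg φ) v p ↔ ∀ q ≤ p, ¬ S.Forces φ v q := Iff.rfl

theorem forces_and (S : SymSys P G) {k : ℕ} (φ ψ : Fml k) (v : Fin k → Name P) (p : P) :
    S.Forces (Fml.and φ ψ) v p ↔ S.Forces φ v p ∧ S.Forces ψ v p := Iff.rfl

theorem forces_all (S : SymSys P G) {k : ℕ} (φ : Fml (k + 1)) (v : Fin k → Name P) (p : P) :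
    S.Forces (Fml.all φ) v p ↔ ∀ x, S.IsHS x → S.Forces φ (Fin.cons x v) p := Iff.rfl

theorem forces_imp (S : SymSys P G) {k : ℕ} (φ ψ : Fml k) (v : Fin k → Name P) (p : P) :
    S.Forces (Fml.imp φ ψ) v p ↔ ∀ q ≤ p, S.Forces φ v q → S.Forces ψ v q := by
  unfold Fml.imp
  simp only [forces_neg, forces_and]
  constructor
  · intro h q hq hφ
    refine forces_dense S ψ v fun r hr => ?_
    by_contra hn
    push Not at hn
    exact h r (hr.trans hq) ⟨forces_mono S φ v hφ hr, fun s hs => hn s hs⟩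
  · rintro h q hq ⟨hφ, hn⟩
    exact hn q le_rfl (h q hq hφ)

theorem forces_or (S : SymSys P G) {k : ℕ} (φ ψ : Fml k) (v : Fin k → Name P) (p : P) :
    S.Forces (Fml.or φ ψ) v p ↔ ∀ q ≤ p, ∃ r ≤ q, S.Forces φ v r ∨ S.Forces ψ v r := by
  unfold Fml.or
  simp only [forces_neg, forces_and]
  constructor
  · intro h q hq
    by_contra hn
    push Not at hn
    exact h q hq ⟨fun r hr => (hn r hr).1, fun r hr => (hn r hr).2⟩
  · rintro h q hq ⟨h1, h2⟩
    obtain ⟨r, hr, h3 | h3⟩ := h q hq
    · exact h1 r hr h3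
    · exact h2 r hr h3

theorem forces_iff (S : SymSys P G) {k : ℕ} (φ ψ : Fml k) (v : Fin k → Name P) (p : P) :
    S.Forces (Fml.iff φ ψ) v p ↔ ∀ q ≤ p, (S.Forces φ v q ↔ S.Forces ψ v q) := by
  unfold Fml.iff
  rw [forces_and, forces_imp, forces_imp]
  exact ⟨fun h q hq => ⟨h.1 q hq, h.2 q hq⟩, fun h => ⟨fun q hq => (h q hq).1, fun q hq => (h q hq).2⟩⟩

theorem forces_ex (S : SymSys P G) {k : ℕ} (φ : Fml (k + 1)) (v : Fin k → Name P) (p : P) :
    S.Forces (Fml.ex φ) v p ↔
      ∀ q ≤ p, ∃ r ≤ q, ∃ x, S.IsHS x ∧ S.Forces φ (Fin.cons x v) r := by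
  unfold Fml.ex
  simp only [forces_neg, forces_all]
  constructor
  · intro h q hq
    by_contra hn
    push Not at hn
    exact h q hq fun x hx r hr => hn r hr x hx
  · intro h q hq hn
    obtain ⟨r, hr, x, hx, hf⟩ := h q hq
    exact hn x hx r hr hf

/-- Module B2. -/
theorem st_B2 : ST_forcesFacts.{u} := by
  intro P G _ _ _ _ S
  exact
    { mono := fun φ v _ _ h h' => forces_mono S φ v h h'
      dense := fun φ v _ h => forces_dense S φ v h
      congr := fun φ v w _ h h' => forces_congr S φ v w h h'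
      act := fun φ v _ g h => forces_act S φ v g h
      hsAct := fun _ g h => isHS_act S g h
      ext := fun _ _ _ ha hb h => feq_ext_hs S ha hb h
      imp := fun φ ψ v p => forces_imp S φ ψ v p
      or := fun φ ψ v p => forces_or S φ ψ v p
      iff := fun φ ψ v p => forces_iff S φ ψ v p
      ex := fun φ v p => forces_ex S φ v p }

end Sys

end Pool.Agent.Helper94.SP
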