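import Pool.Agent.Helper94.SP.Iter
import Pool.Agent.Helper46.SP.A07a

/-!
# Module A12: small hulls in closed conditions
-/

open Cardinal Set
open scoped Pointwise

namespace Pool.Agent.Helper94.SP

open Pool.Agent.Helper46.SP

theorem mk_biUnion_le {α β : Type} {c : Cardinal.{0}} (hc : ℵ₀ ≤ c) (s : Set α)
    (f : α → Set β) (hs : #s ≤ c) (hf : ∀ a ∈ s, #(f a) ≤ c) : #(⋃ a ∈ s, f a : Set β) ≤ c := by
  have h1 : (⋃ a ∈ s, f a : Set β) = ⋃ a : s, f a.1 := by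
    rw [Set.biUnion_eq_iUnion]
  rw [h1]
  refine (mk_iUnion_le _).trans ?_
  calc #s * ⨆ a : s, #(f a.1) ≤ c * c := by
        apply mul_le_mul' hs
        exact ciSup_le' (fun a => hf a.1 a.2)
    _ = c := mul_eq_self hc

theorem mk_sUnion_le' {β : Type} {c : Cardinal.{0}} (hc : ℵ₀ ≤ c) (D : Set (Set β))
    (hs : #D ≤ c) (hf : ∀ a ∈ D, #a ≤ c) : #(⋃₀ D : Set β) ≤ c := by
  rw [Set.sUnion_eq_biUnion]
  exact mk_biUnion_le hc D (fun a => a) hs hf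

/-- A small subset of a union of a long chain is contained in a member. -/
theorem subset_of_small {ι β : Type} [LinearOrder ι] {θ : Cardinal.{0}} (x : ι → Set β)
    (hx : Monotone x)
    (hb : ∀ (α : Type) (f : α → ι), #α < θ → ∃ k : ι, ∀ a, f a < k)
    (z : Set β) (hz : #z < θ) (h : z ⊆ ⋃ i, x i) : ∃ k, z ⊆ x k := by
  have h1 : ∀ a : z, ∃ i, a.1 ∈ x i := fun a => Set.mem_iUnion.1 (h a.2)
  choose f hf using h1
  obtain ⟨k, hk⟩ := hb z f hz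
  exact ⟨k, fun b hb' => hx (hk ⟨b, hb'⟩).le (hf ⟨b, hb'⟩)⟩

/-- Module A12. -/
theorem st_A12 (hcount : ST_count) (hO : ST_ofacts) (hRN : ST_RN) : ST_hull := by
  classical
  intro Q S ζ d Y z hd hY hzY hzκ
  obtain ⟨θ, hθ, hθη, hθκ⟩ := Q.κ_reg ζ
  have hκ : ℵ₀ ≤ Q.κ ζ := κ_inf ζ
  have hR := hRN Q
  have hOF := hO Q S
  -- the one step extension
  have hstep : ∀ X ∈ {X : Set (Idx Q) | X ⊆ Y ∧ #X ≤ Q.κ ζ},
      ∃ X' ∈ {X : Set (Idx Q) | X ⊆ Y ∧ #X ≤ Q.κ ζ}, X ≤ X' ∧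
        ∀ t ∈ d, UOver t.1 X → lab t.2.1 ∈ X → t.2.2.Over X' := by
    rintro X ⟨hX, hXκ⟩
    have h1 : ∀ t ∈ rst d X, ∃ w : Set (Idx Q), w ⊆ Y ∧ #w ≤ Q.κ ζ ∧ t.2.2.Over w := by
      intro t ht
      obtain ⟨w, hw, -, hw'⟩ := hR.over_univ t.2.2
      refine ⟨Y ∩ w, Set.inter_subset_left, ?_, hR.over_inter _ _ _ (hd.ovr t ht.1).2.2 hw'⟩
      exact ((mk_le_mk_of_subset Set.inter_subset_right).trans (Cardinal.le_aleph0_iff_set_countable.2 hw)).trans hκ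
    choose! w hw1 hw2 hw3 using h1
    refine ⟨X ∪ ⋃ t ∈ rst d X, w t, ⟨?_, ?_⟩, Set.subset_union_left, ?_⟩
    · exact Set.union_subset hX (Set.iUnion₂_subset hw1)
    · refine (mk_union_le _ _).trans ?_
      have h2 : #(⋃ t ∈ rst d X, w t : Set (Idx Q)) ≤ Q.κ ζ :=
        mk_biUnion_le hκ _ _ ((hcount Q S X).2.2 ζ d hd.cond hXκ (hX.trans hY)) hw2
      exact (add_le_add hXκ h2).trans (add_eq_self hκ).le
    · intro t ht h3 h4
      have h5 : t ∈ rst d X := ⟨ht, h3, h4⟩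
      exact hR.over_mono _ _ _ (hw3 t h5)
        ((Set.subset_biUnion_of_mem (u := w) h5).trans Set.subset_union_right)
  obtain ⟨ι, _, x, hmx, hxV, hne, hb, hsup, h0, hnext⟩ := close_exists (Q.κ ζ) θ hκ hθ hθκ
    {X : Set (Idx Q) | X ⊆ Y ∧ #X ≤ Q.κ ζ} (by
      intro D hD _ _ hDc
      refine ⟨Set.sUnion_subset fun X hX => (hD hX).1, ?_⟩
      exact mk_sUnion_le' hκ D hDc (fun X hX => (hD hX).2)) _ hstep z ⟨hzY, hzκ⟩
  have hZ : sSup (Set.range x) = ⋃ i, x i := by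
    rw [Set.sSup_eq_sUnion, Set.sUnion_range]
  rw [hZ] at hsup
  refine ⟨⋃ i, x i, ?_, hsup.1, hsup.2, ?_⟩
  · obtain ⟨i⟩ := hne
    exact (h0 i).trans (Set.subset_iUnion x i)
  · rintro t ht ⟨w, hw, hwκ, hwf⟩ hl
    have hlev : S.lev t.1 < ζ := by
      have h1 := (hOF.names ⊤ d hd.cond t ht).lev
      rw [h1]
      have h2 := hOF.coverLev (ζ : Stg Q) d Y hd.ovr hY t ht
      exact_mod_cast h2
    obtain ⟨k, hk⟩ := subset_of_small x hmx hb w (hwκ.trans_lt (hθη _ hlev)) hw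
    obtain ⟨k', hk'⟩ := Set.mem_iUnion.1 hl
    obtain ⟨m, hm⟩ := hb Bool (fun b => if b then k else k')
      (by rw [mk_bool]; exact_mod_cast hθ.nat_lt 2)
    have hkm : max k k' < m := by
      rw [max_lt_iff]
      exact ⟨by simpa using hm true, by simpa using hm false⟩
    obtain ⟨y, hy, hy1, hy2⟩ := hnext _ _ hkm
    have h3 : t.2.2.Over (x m) := by
      apply hy2 t ht
      · exact ⟨w, (hk.trans (hmx (le_max_left k k'))).trans hy1, hwκ, hwf⟩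
      · exact hy1 (hmx (le_max_right k k') hk')
    exact hR.over_mono _ _ _ h3 (Set.subset_iUnion x m)

end Pool.Agent.Helper94.SP
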