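import Pool.Agent.Helper46.SP.CoreSpec

/-!
# Iterations of regular length (closing-off arguments)
-/

open Cardinal Set Ordinal

namespace Pool.Agent.Helper94.SP

/-- Every regular cardinal is the length of a well order in which small sets are bounded. -/
theorem exists_index {θ : Cardinal.{0}} (hθ : θ.IsRegular) :
    ∃ (ι : Type) (_ : LinearOrder ι) (_ : WellFoundedLT ι), #ι = θ ∧
      ∀ (α : Type) (f : α → ι), #α < θ → ∃ k : ι, ∀ a, f a < k := by
  refine ⟨θ.ord.ToType, inferInstance, inferInstance, mk_ord_toType θ, fun α f hα => ?_⟩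
  have h1 : (⨆ a, ((Ordinal.ToType.mk.symm (f a) : Set.Iio θ.ord) : Ordinal.{0})) < θ.ord := by
    apply Ordinal.iSup_lt_of_lt_cof
    · rwa [hθ.cof_ord]
    · intro a
      exact (Ordinal.ToType.mk.symm (f a)).2
  have h2 : Order.succ (⨆ a, ((Ordinal.ToType.mk.symm (f a) : Set.Iio θ.ord) : Ordinal.{0})) <
      θ.ord := (isSuccLimit_ord hθ.aleph0_le).succ_lt h1
  refine ⟨Ordinal.ToType.mk ⟨_, h2⟩, fun a => ?_⟩
  rw [← Ordinal.ToType.mk.symm.lt_iff_lt, OrderIso.symm_apply_apply]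
  have h3 : ((Ordinal.ToType.mk.symm (f a) : Set.Iio θ.ord) : Ordinal.{0}) ≤
      ⨆ a, ((Ordinal.ToType.mk.symm (f a) : Set.Iio θ.ord) : Ordinal.{0}) :=
    Ordinal.le_iSup (fun a => ((Ordinal.ToType.mk.symm (f a) : Set.Iio θ.ord) : Ordinal.{0})) a
  exact Subtype.coe_lt_coe.1 (lt_of_le_of_lt h3 (Order.lt_succ _))

/-- Every type carries a well order. -/
theorem exists_wo (ι : Type) : ∃ (_ : LinearOrder ι), WellFoundedLT ι := by
  classical
  exact ⟨linearOrderOfSTO (WellOrderingRel (α := ι)),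
    ⟨(WellOrderingRel.isWellOrder (α := ι)).toIsWellFounded.wf⟩⟩

/-- Iteration along a well order. -/
theorem iter_exists {L : Type} [CompleteLattice L] {ι : Type} [LinearOrder ι] [WellFoundedLT ι]
    (c : Cardinal.{0}) (hc : ℵ₀ ≤ c) (hι : #ι ≤ c) (V : Set L)
    (hV : ∀ D ⊆ V, D.Nonempty → IsChain (· ≤ ·) D → #D ≤ c → sSup D ∈ V)
    (t : ι → L → L) (ht : ∀ i, ∀ x ∈ V, t i x ∈ V ∧ x ≤ t i x) (x0 : L) (hx0 : x0 ∈ V) :
    ∃ x : ι → L, (∀ i, x i ∈ V) ∧ Monotone x ∧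
      ∀ i, ∃ y ∈ V, x0 ≤ y ∧ (∀ j < i, x j ≤ y) ∧ x i = t i y := by
  classical
  let F : (i : ι) → ((j : ι) → j < i → L) → L := fun i ih =>
    t i (sSup ({x0} ∪ {z | ∃ (j : ι) (h : j < i), z = ih j h}))
  let x : ι → L := (wellFounded_lt (α := ι)).fix F
  have hx : ∀ i, x i = t i (sSup ({x0} ∪ {z | ∃ (j : ι) (_ : j < i), z = x j})) := by
    intro i
    exact WellFounded.fix_eq _ F i
  have key : ∀ i, sSup ({x0} ∪ {z | ∃ (j : ι) (_ : j < i), z = x j}) ∈ V := by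
    intro i
    induction i using WellFoundedLT.induction with
    | ind i ih =>
      have hxj : ∀ j < i, x j ∈ V ∧ sSup ({x0} ∪ {z | ∃ (k : ι) (_ : k < j), z = x k}) ≤ x j := by
        intro j hj
        rw [hx j]
        exact ht j _ (ih j hj)
      have hle : ∀ j < i, ∀ k < j, x k ≤ x j := fun j hj k hk =>
        le_trans (le_sSup (Or.inr ⟨k, hk, rfl⟩)) (hxj j hj).2
      have h0 : ∀ j < i, x0 ≤ x j := fun j hj => le_trans (le_sSup (Or.inl rfl)) (hxj j hj).2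
      apply hV
      · rintro z (hz | ⟨j, hj, rfl⟩)
        · rw [hz]; exact hx0
        · exact (hxj j hj).1
      · exact ⟨x0, Or.inl rfl⟩
      · rintro z (hz | ⟨j, hj, rfl⟩) w (hw | ⟨k, hk, rfl⟩) hne
        · exact absurd (hz.trans hw.symm) hne
        · rw [hz]; exact Or.inl (h0 k hk)
        · rw [hw]; exact Or.inr (h0 j hj)
        · rcases lt_trichotomy j k with h | h | h
          · exact Or.inl (hle k hk j h)
          · exact absurd (by rw [h]) hne
          · exact Or.inr (hle j hj k h)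
      · refine (mk_union_le _ _).trans ?_
        have h1 : #({z | ∃ (j : ι) (_ : j < i), z = x j} : Set L) ≤ c := by
          refine le_trans ?_ hι
          have : ({z | ∃ (j : ι) (_ : j < i), z = x j} : Set L) ⊆ Set.range x := by
            rintro z ⟨j, _, rfl⟩
            exact ⟨j, rfl⟩
          exact (mk_le_mk_of_subset this).trans mk_range_le
        calc #({x0} : Set L) + #({z | ∃ (j : ι) (_ : j < i), z = x j} : Set L) ≤ 1 + c := by
              gcongr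
              simp
          _ ≤ c := (add_le_of_le hc (one_le_aleph0.trans hc) le_rfl)
  refine ⟨x, fun i => by rw [hx i]; exact (ht i _ (key i)).1, ?_, fun i => ?_⟩
  · intro j i hji
    rcases hji.eq_or_lt with h | h
    · rw [h]
    · rw [hx i]
      exact le_trans (le_sSup (Or.inr ⟨j, h, rfl⟩)) (ht i _ (key i)).2
  · exact ⟨_, key i, le_sSup (Or.inl rfl), fun j hj => le_sSup (Or.inr ⟨j, hj, rfl⟩), hx i⟩

/-- Fulfilling at most `c` many tasks. -/
theorem tasks_exists {L : Type} [CompleteLattice L] {ι : Type}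
    (c : Cardinal.{0}) (hc : ℵ₀ ≤ c) (hι : #ι ≤ c) (V : Set L)
    (hV : ∀ D ⊆ V, D.Nonempty → IsChain (· ≤ ·) D → #D ≤ c → sSup D ∈ V)
    (R : ι → L → Prop) (hmono : ∀ i x y, x ≤ y → R i x → R i y)
    (hR : ∀ i, ∀ x ∈ V, ∃ y ∈ V, x ≤ y ∧ R i y) (x0 : L) (hx0 : x0 ∈ V) :
    ∃ y ∈ V, x0 ≤ y ∧ ∀ i, R i y := by
  classical
  rcases isEmpty_or_nonempty ι with he | hne
  · exact ⟨x0, hx0, le_rfl, fun i => he.elim i⟩
  obtain ⟨_, _⟩ := exists_wo ι
  obtain ⟨x, hxV, hmx, hx⟩ := iter_exists c hc hι V hV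
    (fun i x => if h : x ∈ V then Classical.choose (hR i x h) else x)
    (fun i x h => by
      rw [dif_pos h]
      exact ⟨(Classical.choose_spec (hR i x h)).1, (Classical.choose_spec (hR i x h)).2.1⟩) x0 hx0
  have hRx : ∀ i, R i (x i) := by
    intro i
    obtain ⟨y, hy, -, -, he⟩ := hx i
    rw [he, dif_pos hy]
    exact (Classical.choose_spec (hR i y hy)).2.2
  refine ⟨sSup (Set.range x), hV _ ?_ ?_ ?_ ?_, ?_, fun i => ?_⟩
  · rintro _ ⟨i, rfl⟩; exact hxV i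
  · exact Set.range_nonempty x
  · rintro _ ⟨i, rfl⟩ _ ⟨j, rfl⟩ _
    rcases le_total i j with h | h
    · exact Or.inl (hmx h)
    · exact Or.inr (hmx h)
  · exact mk_range_le.trans hι
  · obtain ⟨i⟩ := hne
    obtain ⟨y, hy, h0, -, he⟩ := hx i
    refine le_trans ?_ (le_sSup ⟨i, rfl⟩)
    rw [he, dif_pos hy]
    exact h0.trans (Classical.choose_spec (hR i y hy)).2.1
  · exact hmono i _ _ (le_sSup ⟨i, rfl⟩) (hRx i)

/-- Closing off: iterate a one-step extension a regular number of times. -/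
theorem close_exists {L : Type} [CompleteLattice L]
    (c θ : Cardinal.{0}) (hc : ℵ₀ ≤ c) (hθ : θ.IsRegular) (hθc : θ ≤ c) (V : Set L)
    (hV : ∀ D ⊆ V, D.Nonempty → IsChain (· ≤ ·) D → #D ≤ c → sSup D ∈ V)
    (R : L → L → Prop)
    (hR : ∀ x ∈ V, ∃ y ∈ V, x ≤ y ∧ R x y) (x0 : L) (hx0 : x0 ∈ V) :
    ∃ (ι : Type) (_ : LinearOrder ι) (x : ι → L), Monotone x ∧ (∀ i, x i ∈ V) ∧ Nonempty ι ∧
      (∀ (α : Type) (f : α → ι), #α < θ → ∃ k : ι, ∀ a, f a < k) ∧ sSup (Set.range x) ∈ V ∧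
      (∀ i, x0 ≤ x i) ∧ ∀ i j, i < j → ∃ y ∈ V, x i ≤ y ∧ R y (x j) := by
  classical
  obtain ⟨ι, _, _, hι, hb⟩ := exists_index hθ
  obtain ⟨x, hxV, hmx, hx⟩ := iter_exists c hc (hι.trans_le hθc) V hV
    (fun i x => if h : x ∈ V then Classical.choose (hR x h) else x)
    (fun i x h => by
      rw [dif_pos h]
      exact ⟨(Classical.choose_spec (hR x h)).1, (Classical.choose_spec (hR x h)).2.1⟩) x0 hx0
  have hne : Nonempty ι := by
    rw [← mk_ne_zero_iff, hι]
    exact hθ.pos.ne'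
  refine ⟨ι, inferInstance, x, hmx, hxV, hne, hb, hV _ ?_ ?_ ?_ ?_, fun i => ?_, fun i j hij => ?_⟩
  · rintro _ ⟨i, rfl⟩; exact hxV i
  · exact Set.range_nonempty x
  · rintro _ ⟨i, rfl⟩ _ ⟨j, rfl⟩ _
    rcases le_total i j with h | h
    · exact Or.inl (hmx h)
    · exact Or.inr (hmx h)
  · exact mk_range_le.trans (hι.trans_le hθc)
  · obtain ⟨y, hy, h0, -, he⟩ := hx i
    rw [he, dif_pos hy]
    exact h0.trans (Classical.choose_spec (hR y hy)).2.1
  · obtain ⟨y, hy, -, h1, he⟩ := hx j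
    refine ⟨y, hy, h1 i hij, ?_⟩
    rw [he, dif_pos hy]
    exact (Classical.choose_spec (hR y hy)).2.2

end Pool.Agent.Helper94.SP
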